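import Pool.Agent.H13.LK.Stmts

/-!
# Labels: from the tubes and from the truncation
-/

set_option autoImplicit false

namespace Pool.LK

open Finset Real
open Pool.Agent.H49.Ent Pool.Agent.H32.Dense Pool.STK Pool.KA Pool.KSAT Pool.K2S

/-- **(TRCL)** -/
theorem trcl_thm : TRCLStmt := by
  intro m b J x hx F B
  refine ⟨⟨B.k, B.M, fun ω i => (B.le ω i).trans hx, B.bd, B.inv⟩, le_of_eq ?_⟩
  have h1 : Lbl.cost (F := F) ⟨B.k, B.M, fun ω i => (B.le ω i).trans hx, B.bd, B.inv⟩ =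
      CH F.p B.lab F.Z + (∑ ω, F.p ω * ∑ i, ((J : ℝ) - B.k ω i)) * Real.log 2 := rfl
  have h2 : B.cost =
      CH F.p B.lab F.Z + (∑ ω, F.p ω * ∑ i, ((x : ℝ) - B.k ω i)) * Real.log 2 := rfl
  rw [h1, h2]
  have h3 : ∑ ω, F.p ω * ∑ i, ((J : ℝ) - B.k ω i) =
      (∑ ω, F.p ω * ∑ i, ((x : ℝ) - B.k ω i)) + m * ((J : ℝ) - x) := by
    have h4 : ∀ ω, F.p ω * ∑ i, ((J : ℝ) - B.k ω i) =
        F.p ω * ∑ i, ((x : ℝ) - B.k ω i) + F.p ω * (m * ((J : ℝ) - x)) := by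
      intro ω
      rw [← mul_add]
      congr 1
      simp only [Finset.sum_sub_distrib, Finset.sum_const, Finset.card_univ, Fintype.card_fin,
        nsmul_eq_mul]
      ring
    rw [Finset.sum_congr rfl fun ω _ => h4 ω, Finset.sum_add_distrib, ← Finset.sum_mul,
      F.isLaw.sum_one, one_mul]
  rw [h3]
  ring

/-- The floor of a sum with a known first term. -/
theorem floor_two {a b b' : ℝ} (h : ⌊b⌋ = ⌊b'⌋) : |((⌊a + b⌋ - ⌊a + b'⌋ : ℤ) : ℝ)| ≤ 1 := by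
  have h1 := Int.floor_le b
  have h2 := Int.lt_floor_add_one b
  have h3 := Int.floor_le b'
  have h4 := Int.lt_floor_add_one b'
  rw [h] at h1 h2
  have h5 := Int.floor_le (a + b)
  have h6 := Int.lt_floor_add_one (a + b)
  have h7 := Int.floor_le (a + b')
  have h8 := Int.lt_floor_add_one (a + b')
  have h9 : ((⌊a + b⌋ : ℤ) : ℝ) < ((⌊a + b'⌋ + 2 : ℤ) : ℝ) := by push_cast; linarith
  have h10 : ((⌊a + b'⌋ : ℤ) : ℝ) < ((⌊a + b⌋ + 2 : ℤ) : ℝ) := by push_cast; linarith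
  have h11 : ⌊a + b⌋ < ⌊a + b'⌋ + 2 := by exact_mod_cast h9
  have h12 : ⌊a + b'⌋ < ⌊a + b⌋ + 2 := by exact_mod_cast h10
  have h13 : |⌊a + b⌋ - ⌊a + b'⌋| ≤ 1 := by
    rw [abs_le]
    constructor <;> linarith
  exact_mod_cast h13

/-- The cells of the finer box from the cells in the tube. -/
theorem flk_tub {m : ℕ} (k : Fin m → ℕ) (M : Fin m → Fin m → ℝ) (q : ℕ) (x : Fin m → ℝ)
    (i : Fin m) : flk (fun i => k i + q) (mco M x) i =
      ⌊(2 : ℝ) ^ k i * mco M (fun j => ((fl q x j : ℤ) : ℝ)) i +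
        (2 : ℝ) ^ k i * mco M (fun j => Int.fract (2 ^ q * x j)) i⌋ := by
  unfold flk mco
  congr 1
  rw [← mul_add, ← Finset.sum_add_distrib, pow_add, mul_assoc, Finset.mul_sum]
  congr 1
  refine Finset.sum_congr rfl fun j _ => ?_
  have h : ((fl q x j : ℤ) : ℝ) + Int.fract ((2 : ℝ) ^ q * x j) = 2 ^ q * x j :=
    Int.floor_add_fract _
  rw [← mul_add, h]
  ring

/-- **(TUBL)** -/
theorem tubl_thm : TUBLStmt := by
  classical
  intro m b
  refine ⟨2 * (m * Real.log 3), by positivity, ?_⟩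
  intro J q hq F B
  have hle : ∀ ω i, B.k ω i + q ≤ J := fun ω i => by
    have := B.le ω i
    omega
  let B' : Lbl F b := ⟨fun ω i => B.k ω i + q, B.M, hle, B.bd, B.inv⟩
  refine ⟨B', ?_⟩
  have hp := F.isLaw.nonneg
  have h1 : B'.cost = CH F.p B'.lab F.Z +
      (∑ ω, F.p ω * ∑ i, ((J : ℝ) - (B.k ω i + q : ℕ))) * Real.log 2 := rfl
  have h2 : B.cost = CH F.p B.lab (fun ω => (F.L q ω, F.Z ω)) +
      (∑ ω, F.p ω * ∑ i, (((J - q : ℕ) : ℝ) - B.k ω i)) * Real.log 2 := rfl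
  have h3 : ∑ ω, F.p ω * ∑ i, ((J : ℝ) - (B.k ω i + q : ℕ)) =
      ∑ ω, F.p ω * ∑ i, (((J - q : ℕ) : ℝ) - B.k ω i) := by
    refine Finset.sum_congr rfl fun ω _ => ?_
    congr 1
    refine Finset.sum_congr rfl fun i _ => ?_
    rw [Nat.cast_sub hq]
    push_cast
    ring
  have h4 := CH_le_add hp B'.lab (F.L q) F.Z
  have h5 := CH_le_add hp B'.lab B.lab (fun ω => (F.L q ω, F.Z ω))
  set W : F.Ω → _ := fun ω => (B.lab ω, (F.L q ω, F.Z ω)) with hW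
  set v₁ : F.Ω → Fin m → ℤ := fun ω => flk (B'.k ω) (mco (B'.M ω) (F.u ω)) with hv₁
  set v₂ : F.Ω → Fin m → ℤ := fun ω => flk (B'.k ω) (mco (B'.M ω) (F.d ω)) with hv₂
  have h6 : CH F.p B'.lab W ≤ CH F.p (fun ω => (v₁ ω, v₂ ω)) W := by
    refine CH_mono_left hp ?_
    intro ω ω' _ _ h
    have e1 : (v₁ ω, v₂ ω) = (v₁ ω', v₂ ω') := (Prod.ext_iff.1 h).1
    have e2 : W ω = W ω' := (Prod.ext_iff.1 h).2
    have e3 : B.lab ω = B.lab ω' := (Prod.ext_iff.1 e2).1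
    have e4 : (B.k ω, B.M ω) = (B.k ω', B.M ω') := (Prod.ext_iff.1 e3).1
    show (((B'.k ω, B'.M ω), (v₁ ω, v₂ ω)) : _ × _) = ((B'.k ω', B'.M ω'), (v₁ ω', v₂ ω'))
    rw [e1]
    have e5 : B.k ω = B.k ω' := (Prod.ext_iff.1 e4).1
    have e6 : B.M ω = B.M ω' := (Prod.ext_iff.1 e4).2
    have e7 : B'.k ω = B'.k ω' := by
      funext i
      show B.k ω i + q = B.k ω' i + q
      rw [e5]
    have e8 : B'.M ω = B'.M ω' := e6
    rw [e7, e8]
  have h7 := CH_subadd hp v₁ v₂ W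
  have key : ∀ (x : F.Ω → Fin m → ℝ),
      (∀ ω ω', W ω = W ω' → fl q (x ω) = fl q (x ω') ∧
        flk (B.k ω) (mco (B.M ω) (fun i => Int.fract (2 ^ q * x ω i))) =
        flk (B.k ω') (mco (B.M ω') (fun i => Int.fract (2 ^ q * x ω' i)))) →
      CH F.p (fun ω => flk (B'.k ω) (mco (B'.M ω) (x ω))) W ≤ m * Real.log 3 := by
    intro x hx
    have h8 := CH_le_vec hp F.isLaw.sum_one (fun ω => flk (B'.k ω) (mco (B'.M ω) (x ω))) W
      (fun _ => 1) (by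
        intro ω ω' _ _ hWW i
        obtain ⟨g1, g2⟩ := hx ω ω' hWW
        have e3 : B.lab ω = B.lab ω' := (Prod.ext_iff.1 hWW).1
        have e4 : (B.k ω, B.M ω) = (B.k ω', B.M ω') := (Prod.ext_iff.1 e3).1
        have e5 : B.k ω = B.k ω' := (Prod.ext_iff.1 e4).1
        have e6 : B.M ω = B.M ω' := (Prod.ext_iff.1 e4).2
        show |((flk (fun i => B.k ω i + q) (mco (B.M ω) (x ω)) i -
          flk (fun i => B.k ω' i + q) (mco (B.M ω') (x ω')) i : ℤ) : ℝ)| ≤ 1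
        rw [flk_tub, flk_tub, ← e5, ← e6, ← g1]
        refine floor_two ?_
        have g3 := congrFun g2 i
        rw [← e5, ← e6] at g3
        exact g3)
    refine h8.trans (le_of_eq ?_)
    rw [Ex_const F.isLaw.sum_one]
    norm_num
  have h9 : CH F.p v₁ W ≤ m * Real.log 3 := by
    refine key F.u ?_
    intro ω ω' h
    have e1 : F.L q ω = F.L q ω' := (Prod.ext_iff.1 (Prod.ext_iff.1 h).2).1
    have e2 : B.lab ω = B.lab ω' := (Prod.ext_iff.1 h).1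
    exact ⟨(Prod.ext_iff.1 e1).1, (Prod.ext_iff.1 (Prod.ext_iff.1 e2).2).1⟩
  have h10 : CH F.p v₂ W ≤ m * Real.log 3 := by
    refine key F.d ?_
    intro ω ω' h
    have e1 : F.L q ω = F.L q ω' := (Prod.ext_iff.1 (Prod.ext_iff.1 h).2).1
    have e2 : B.lab ω = B.lab ω' := (Prod.ext_iff.1 h).1
    exact ⟨(Prod.ext_iff.1 e1).2, (Prod.ext_iff.1 (Prod.ext_iff.1 e2).2).2⟩
  rw [h1, h2, h3]
  linarith

end Pool.LK
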